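import Pool.Agent.H343.QF.StQ

set_option autoImplicit false

/-!
The quotient is good.
-/

namespace Pool.Agent.H52.QF

open Pool.Agent.TH68 Pool.Agent.Helper97.Hyp Pool.Agent.H343.AN Pool.Agent.H343.QF

theorem q9 : S_q3 → S_q4 → S_q5 → S_q6 → S_q7 → S_q8 → S_q9 := by
  intro h3 h4 h5 h6 h7 h8 Γ _ W 𝒜 _ Y R hR a b δ D hG hD hL hst W' hQ
  have hρ : (10 : ℝ) ^ 5 ≤ R.ρ := by
    have h1 := Y.hδ
    have h2 := Y.hθ
    nlinarith
  refine ⟨h3 Y R hR W' hQ, by linarith, by linarith, ?_, h6 Y R hR a hL hG.pow W' hQ, ?_, ?_,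
    h7 Y R hR a b δ D hG hD hL W' hQ, ?_⟩
  · -- generators
    intro g hg
    obtain ⟨g0, rfl⟩ := QuotientGroup.mk_surjective g
    obtain ⟨n, hn, h⟩ := hQ.ex g0
    rw [hg] at h
    have e : (g0 : Γ ⧸ R.N) = ((g0 * n : Γ) : Γ ⧸ R.N) := by
      rw [QuotientGroup.eq]
      simpa using hn
    rw [e]
    rcases hG.gen _ h with h1 | h1 | h1 | h1 <;> rw [h1]
    · exact Or.inl rfl
    · exact Or.inr (Or.inl rfl)
    · exact Or.inr (Or.inr (Or.inl rfl))
    · exact Or.inr (Or.inr (Or.inr rfl))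
  · -- the length of b
    have h1 : W'.ℓ (b : Γ ⧸ R.N) ≤ 1 := by
      have := hQ.le b
      rwa [hG.lb] at this
    have h2 : W'.ℓ (b : Γ ⧸ R.N) ≠ 0 := by
      intro h0
      have h3 := W'.eq_one _ h0
      rw [QuotientGroup.eq_one_iff] at h3
      have hb : b ≠ 1 := by
        intro hb
        have h5 := hG.lb
        rw [hb, W.one'] at h5
        exact zero_ne_one h5
      have h5 := h4 Y R hR b h3 hb
      rw [hG.lb] at h5
      norm_num at h5
      linarith
    omega
  · -- torsion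
    intro g n hn hg
    obtain ⟨u, rfl⟩ := QuotientGroup.mk_surjective g
    rw [QuotientGroup.eq_one_iff]
    refine h5 Y R hR hG.tf hst u n hn ?_
    rw [← QuotientGroup.eq_one_iff, QuotientGroup.mk_pow]
    exact hg
  · -- double cosets
    intro i j k l hi hj hij heq
    have h1 : a ^ k * b ^ j * a ^ l * b ^ (-i) ∈ R.N := by
      rw [← QuotientGroup.eq_one_iff]
      simp only [QuotientGroup.mk_mul, QuotientGroup.mk_zpow]
      rw [← heq, zpow_neg, mul_inv_cancel]
    have h2 := h8 Y R hR a b hL hG.lb i j k l hi hj h1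
    apply hG.dc i j k l hi hj hij
    rw [zpow_neg, mul_inv_eq_one] at h2
    exact h2.symm

end Pool.Agent.H52.QF
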